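import Pool.Agent.H699.MX.Defs

/-!
MX-CRT (helper66 for helper699): a critical point of a tree gives a critical point of a child.
-/

set_option autoImplicit false

open MeasureTheory Finset
open scoped ENNReal

namespace Pool.Agent.H66.MX.CRT

open Pool.Agent.H699.MX

theorem meas_le (c : ℝ) : MeasurableSet {p : ℝ × ℝ | p.1 - p.2 ≤ c} :=
  measurableSet_le (measurable_fst.sub measurable_snd) measurable_const

theorem meas_lt (c : ℝ) : MeasurableSet {p : ℝ × ℝ | p.1 - p.2 < c} :=
  measurableSet_lt (measurable_fst.sub measurable_snd) measurable_const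

theorem null_line (μ ν : Measure ℝ) [IsProbabilityMeasure μ] [IsProbabilityMeasure ν]
    (hμ : ∀ x, μ {x} = 0) (c : ℝ) : (μ.prod ν) {p | p.1 - p.2 = c} = 0 := by
  have hm : MeasurableSet {p : ℝ × ℝ | p.1 - p.2 = c} :=
    measurableSet_eq_fun (measurable_fst.sub measurable_snd) measurable_const
  rw [Measure.prod_apply_symm hm]
  have h1 : ∀ v : ℝ, μ ((fun x => (x, v)) ⁻¹' {p : ℝ × ℝ | p.1 - p.2 = c}) = 0 := by
    intro v
    have h2 : (fun x => (x, v)) ⁻¹' {p : ℝ × ℝ | p.1 - p.2 = c} = {c + v} := by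
      ext x
      change x - v = c ↔ x = c + v
      constructor
      · intro h
        linarith
      · intro h
        linarith
    rw [h2, hμ]
  simp_rw [h1]
  exact lintegral_zero

theorem le_eq_lt (μ ν : Measure ℝ) [IsProbabilityMeasure μ] [IsProbabilityMeasure ν]
    (hμ : ∀ x, μ {x} = 0) (c : ℝ) :
    (μ.prod ν) {p | p.1 - p.2 ≤ c} = (μ.prod ν) {p | p.1 - p.2 < c} := by
  have h0 : {p : ℝ × ℝ | p.1 - p.2 < c} ⊆ {p | p.1 - p.2 ≤ c} := by
    intro p hp
    change p.1 - p.2 ≤ c
    change p.1 - p.2 < c at hp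
    exact hp.le
  refine le_antisymm ?_ (measure_mono h0)
  have h1 : {p : ℝ × ℝ | p.1 - p.2 ≤ c} ⊆ {p | p.1 - p.2 < c} ∪ {p | p.1 - p.2 = c} := by
    intro p hp
    change p.1 - p.2 ≤ c at hp
    rcases lt_or_eq_of_le hp with h | h
    · exact Or.inl h
    · exact Or.inr h
  refine (measure_mono h1).trans ((measure_union_le _ _).trans ?_)
  rw [null_line μ ν hμ c, add_zero]

theorem sec_eq (c w : ℝ) : Prod.mk w ⁻¹' {p : ℝ × ℝ | p.1 - p.2 < c} = Set.Ioi (w - c) := by
  ext v
  change w - v < c ↔ w - c < v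
  constructor
  · intro h
    linarith
  · intro h
    linarith

theorem meas_sec (ν : Measure ℝ) [IsProbabilityMeasure ν] (c : ℝ) :
    Measurable fun w => ν (Set.Ioi (w - c)) := by
  have := measurable_measure_prodMk_left (ν := ν) (meas_lt c)
  simp_rw [sec_eq] at this
  exact this

theorem int_sec (μ ν : Measure ℝ) [IsProbabilityMeasure μ] [IsProbabilityMeasure ν] (c : ℝ) :
    Integrable (fun w => ν.real (Set.Ioi (w - c))) μ := by
  refine Integrable.of_bound (C := 1) (meas_sec ν c).ennreal_toReal.aestronglyMeasurable ?_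
  refine Filter.Eventually.of_forall fun w => ?_
  rw [Real.norm_eq_abs, abs_of_nonneg measureReal_nonneg]
  exact measureReal_le_one

theorem fub (μ ν : Measure ℝ) [IsProbabilityMeasure μ] [IsProbabilityMeasure ν]
    (hμ : ∀ x, μ {x} = 0) (c : ℝ) :
    (μ.prod ν).real {p | p.1 - p.2 ≤ c} = ∫ w, ν.real (Set.Ioi (w - c)) ∂μ := by
  unfold Measure.real
  rw [le_eq_lt μ ν hμ c, Measure.prod_apply (meas_lt c),
    integral_toReal (meas_sec ν c).aemeasurable
      (Filter.Eventually.of_forall fun w => measure_lt_top _ _)]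
  simp_rw [sec_eq]

theorem ioi_eq (ρ : Measure ℝ) [IsProbabilityMeasure ρ] (c : ℝ) :
    ρ.real (Set.Ioi c) = 1 - ρ.real (Set.Iic c) := by
  rw [← Set.compl_Iic, probReal_compl_eq_one_sub measurableSet_Iic]

theorem t_CRT : S_LPR → S_CDF → S_UNI → S_CRT := by
  intro hL hC hU μ a b hG n k c S η t ht ht' hcrit
  have hμ : IsProbabilityMeasure μ := ⟨hG.prob⟩
  have hν : ∀ (i : Fin k) (s : Bool), IsProbabilityMeasure (law μ b n (c i) s) :=
    fun i s => (hL μ a b hG n (c i)).1 s
  obtain ⟨hpp, hpc⟩ := hC μ k (fun i => law μ b n (c i) true) hμ fun i => hν i true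
  obtain ⟨hmp, hmc⟩ := hC μ k (fun i => law μ b n (c i) false) hμ fun i => hν i false
  have hcr : (stepLaw μ k fun i => law μ b n (c i) true).real (Set.Ioi t) <
      (stepLaw μ k fun i => law μ b n (c i) false).real (Set.Ioi (t + S - η)) := hcrit
  rw [ioi_eq, ioi_eq, hpc t ht, hmc (t + S - η) ht'] at hcr
  by_contra hcon
  have hno : ∀ (i : Fin k) (w : ℝ), w ∈ Spt μ →
      (law μ b n (c i) true).real (Set.Ioi (w - t)) ≤
        (law μ b n (c i) false).real (Set.Ioi (w - (t + S - η))) := by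
    intro i w hw
    by_contra hlt
    refine hcon ⟨i, w, hw, ?_⟩
    change (law μ b n (c i) false).real (Set.Ioi (w - t - S + η)) <
      (law μ b n (c i) true).real (Set.Ioi (w - t - S + η + S - η))
    have e1 : w - t - S + η = w - (t + S - η) := by ring
    have e2 : w - t - S + η + S - η = w - t := by ring
    rw [e2, e1]
    exact not_le.mp hlt
  have hxy : ∀ i : Fin k, (μ.prod (law μ b n (c i) true)).real {p | p.1 - p.2 ≤ t} ≤
      (μ.prod (law μ b n (c i) false)).real {p | p.1 - p.2 ≤ t + S - η} := by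
    intro i
    have h1 := hν i true
    have h2 := hν i false
    rw [fub μ _ hG.atoms t, fub μ _ hG.atoms (t + S - η)]
    refine integral_mono_ae (int_sec μ _ t) (int_sec μ _ (t + S - η)) ?_
    have h3 : ∀ᵐ w ∂μ, w ∈ Spt μ := by
      rw [ae_iff]
      exact (hU μ a b hG).2.2
    filter_upwards [h3] with w hw
    exact hno i w hw
  have hpr := Finset.prod_le_prod
    (f := fun i : Fin k => (μ.prod (law μ b n (c i) true)).real {p | p.1 - p.2 ≤ t})
    (g := fun i : Fin k => (μ.prod (law μ b n (c i) false)).real {p | p.1 - p.2 ≤ t + S - η})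
    (s := univ) (fun i _ => measureReal_nonneg) (fun i _ => hxy i)
  linarith

end Pool.Agent.H66.MX.CRT
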